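import Pool.Agent.L0h16.AR.Fin

/-!
# The Tate conjecture for the powers of a variety over a finite field, and the angle rank

Let `X` be a smooth projective variety over the field with `q = p ^ e` elements (`e = Φ.e X`), of
dimension `d` and total Betti number `b`. The *angle rank* `ρ` of `X` is the rank of the
multiplicative group generated by the numbers `α ^ 2 / q ^ i`, where `α` is an eigenvalue of Frobenius on
`H^i(X)`. It is `0` exactly for the supersingular `X`, and at most `b / 2`. Let `D` be a common
denominator of the slopes of the Newton polygons of `X` (normalised by `q`; `D = 1` if `X` is ordinary). Put

`N = rankBound ρ D d = 2 (2 ρ D d + 1) ^ ρ`.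

Theorem. (1) Every generalised Tate class (in every codimension, over every finite extension of the
ground field) on every power `X ^ (n + 1)` is a polynomial in pull-backs of generalised Tate classes on
powers `X ^ (m + 1)`, `m + 1 ≤ N`, along the projections to `m + 1` of the factors.

(2) If the conjecture of Tate on the orders of the poles of the zeta function (equivalently the
Tate conjecture and the equality of homological and numerical equivalence, in all codimensions, over all
finite extensions) holds for the single variety `X ^ N`, then it holds for all powers of `X`.

So the number of factors is bounded in terms of the angle rank, the dimension and the slopes,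
whatever the Betti numbers are. (The bound of the starting file `MP_af4e75_ag.BoundedGeneration` is
`2 b (4 D b ^ 2 + 1) ^ b`; here the exponent is the angle rank, at most `b / 2` and often much
smaller. For supersingular `X` we have `N = 2`, for angle rank `1` we have `N = 4 D d + 2`.)
For abelian varieties Zarhin (2022) proved that there is some bound in terms of the dimension.

Proof. The generalised Tate classes on `X ^ n` are spanned by the monomials in generalised eigenvectors
whose eigenvalues satisfy a multiplicative relation, up to a root of unity. By the product formula and
Kronecker's theorem such a relation means that a sum of vectors of slopes is zero. The vectors of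
slopes span a space of dimension `ρ`, and in suitable coordinates all entries are integers of absolute
value at most `D d` (by Poincaré duality). By the lemma of Steinitz (in the form of Grinberg and
Sevastyanov) the vectors can be ordered such that all partial sums have coordinates at most `ρ D d`, so
that two of the partial sums are equal if there are more than `N` vectors, and the relation splits.

The setting is that of the starting files: `W` is a Weil cohomology theory on smooth projective
varieties over an algebraic closure of a finite field, `Φ` the system of Frobenius endomorphisms,
`pw X n` the power with `n + 1` factors, `genTate` the space of generalised Tate classes.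
-/

set_option autoImplicit false

open CategoryTheory AlgebraicGeometry

universe u v

namespace Pool.Agent.Results.MP_0fca13_ag.AngleRankBound

open Pool.Agent.H914 Pool.Agent.W534 Pool.Agent.Y163 Pool.Agent.R940 Pool.Agent.L0h16.AR
  VarClass Obj WeilCohomology

/-- The angle rank is at most half of the total Betti number; bounded generation of the Tate classes on
the powers of `X` and reduction of the conjecture of Tate for all powers to one power, with a bound
in terms of the angle rank. -/
theorem result {k : Type u} [Field k] {𝒱 : VarClass k} {ops : CycleOps 𝒱}
    (W : WeilCohomology.{u, v} ops) [IsAlgClosed W.K] (σ : W.K →+* ℂ) (p : ℕ) [Fact p.Prime]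
    (Φ : FrobSystem W p) (hRH : ∀ Z : 𝒱.Obj, RiemannHyp Φ σ Z) (X : 𝒱.Obj)
    (hint : HasIntegralPolys Φ σ X) :
    AngleRankLE Φ σ X (Module.finrank W.K (W.H X) / 2) ∧
    IsSlopeDenominator Φ σ X (Φ.e X * (Module.finrank W.K (W.H X)).factorial) ∧
    ∀ D, IsSlopeDenominator Φ σ X D → ∀ r, AngleRankLE Φ σ X r →
      (∀ n s j, 0 < s → ∀ c ∈ genTate Φ (pw X n) s j, c ∈ Algebra.adjoin W.K
        {c | IsPulled Φ X (rankBound r D X.dim) n c}) ∧
      ((∀ j, j ≤ (pw X (rankBound r D X.dim - 1)).dim →
          PoleFormula Φ σ (pw X (rankBound r D X.dim - 1)) j) →
        ∀ n j, j ≤ (pw X n).dim → PoleFormula Φ σ (pw X n) j) :=
  ⟨angleRank_half (hRH X) hint, slopeDenominator (hRH X) hint, fun _ hD _ hr =>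
    main hRH hint hD hr⟩

end Pool.Agent.Results.MP_0fca13_ag.AngleRankBound
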