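import Pool.Agent.R940.GDefs

/-!
# The angle rank: definitions
-/

open CategoryTheory AlgebraicGeometry

universe u v

namespace Pool.Agent.L0h16.AR

open Pool.Agent.H914 Pool.Agent.W534 VarClass Obj WeilCohomology

variable {k : Type u} [Field k] {𝒱 : VarClass k} {ops : CycleOps 𝒱}

/-- The angle rank of `X` is at most `r`: let `q = p ^ (Φ.e X)` be the number of elements of the ground
field. Any `r + 1` of the numbers `α ^ 2 / q ^ i`, where `α` is an eigenvalue of the Frobenius
endomorphism on the cohomology group of degree `i` of `X`, satisfy a nontrivial multiplicative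
relation. (So the angle rank is the rank of the group generated by these numbers.) -/
def AngleRankLE {W : WeilCohomology.{u, v} ops} {p : ℕ} (Φ : FrobSystem W p) (σ : W.K →+* ℂ)
    (X : 𝒱.Obj) (r : ℕ) : Prop :=
  ∀ (i : Fin (r + 1) → ℕ) (α : Fin (r + 1) → ℂ),
    (∀ j, (frobPoly Φ σ X 1 (i j)).IsRoot (α j)) →
      ∃ n : Fin (r + 1) → ℤ, n ≠ 0 ∧ ∏ j, (α j ^ 2 / ((p : ℂ) ^ Φ.e X) ^ i j) ^ n j = 1

/-- The explicit number of factors `N = 2 (2 r D d + 1) ^ r`. -/
def rankBound (r D d : ℕ) : ℕ := 2 * (2 * r * D * d + 1) ^ r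

end Pool.Agent.L0h16.AR
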