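import Pool.Agent.L0h16.AR.Rank

/-!
# Bounded generation in terms of the angle rank: the final theorem
-/

set_option linter.unusedVariables false
set_option linter.unusedSectionVars false

open CategoryTheory AlgebraicGeometry CategoryTheory.Limits

universe u v

namespace Pool.Agent.L0h16.AR

open Pool.Agent.H914 Pool.Agent.H447 Pool.Agent.W534 Pool.Agent.Y163 Pool.Agent.R940 VarClass Obj
  WeilCohomology Module Polynomial

variable {k : Type u} [Field k] {𝒱 : VarClass k} {ops : CycleOps 𝒱}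
  {W : WeilCohomology.{u, v} ops} {X Y Z U S : 𝒱.Obj} {p : ℕ} [hp : Fact p.Prime]
  {Φ : FrobSystem W p} {σ : W.K →+* ℂ}

lemma rankBound_pos (r D d : ℕ) : 2 ≤ rankBound r D d := by
  have h1 : 1 ≤ (2 * r * D * d + 1) ^ r := Nat.one_le_pow _ _ (Nat.succ_pos _)
  rw [rankBound]
  omega

/-- **Bounded generation in terms of the angle rank.** -/
theorem main [IsAlgClosed W.K] (hRH : ∀ Z, RiemannHyp Φ σ Z) (hint : HasIntegralPolys Φ σ X)
    {D : ℕ} (hD : IsSlopeDenominator Φ σ X D) {r : ℕ} (hr : AngleRankLE Φ σ X r) :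
    (∀ n s j, 0 < s → ∀ c ∈ genTate Φ (pw X n) s j, c ∈ Algebra.adjoin W.K
        {c | IsPulled Φ X (rankBound r D X.dim) n c}) ∧
      ((∀ j, j ≤ (pw X (rankBound r D X.dim - 1)).dim →
          PoleFormula Φ σ (pw X (rankBound r D X.dim - 1)) j) →
        ∀ n j, j ≤ (pw X n).dim → PoleFormula Φ σ (pw X n) j) := by
  classical
  obtain ⟨ι, hfin, B, lam, hB⟩ := exists_ebasis Φ X
  have hft : Fintype ι := Fintype.ofFinite ι
  have hS := splits hB (hRH X) hint hD hr
  refine ⟨fun n s j hs c hc => generated hB hS hs hc, fun h n j hj => ?_⟩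
  have h1 := semisimple_of_poles (hRH _) h
  have h2 := bounded hB hS (fun m hm j => tate_of_le (n := rankBound r D X.dim - 1) (by omega) h1 j)
  exact pole_of_semisimple (hRH _) (h2 n) hj

end Pool.Agent.L0h16.AR
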