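import Pool.Agent.L0h16.AR.Pig
import Pool.Agent.R940.Tor

/-!
# Relations between Weil numbers and the angle rank
-/

namespace Pool.Agent.L0h16.AR

open Polynomial Finset IntermediateField Pool.Agent.R940

/-- independent columns -/
lemma exists_cols {ι : Type*} [Fintype ι] {t : ℕ} (M : Fin t → ι → ℚ) (hM : LinearIndependent ℚ M) :
    ∃ f : Fin t → ι, LinearIndependent ℚ (fun (j : Fin t) (k : Fin t) => M k (f j)) := by
  classical
  set A : Matrix (Fin t) ι ℚ := Matrix.of M with hA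
  have h1 : A.rank = t := by
    rw [Matrix.rank_eq_finrank_span_row]
    have : A.row = M := rfl
    rw [this, finrank_span_eq_card hM, Fintype.card_fin]
  rw [Matrix.rank_eq_finrank_span_cols] at h1
  obtain ⟨t', ht', f, hf1, hf3⟩ : ∃ t' : ℕ, t' = t ∧ ∃ f : Fin t' → (Fin t → ℚ),
      (∀ i, f i ∈ Set.range A.col) ∧ LinearIndependent ℚ f := by
    obtain ⟨f, hf1, -, hf3⟩ := Submodule.exists_fun_fin_finrank_span_eq ℚ (Set.range A.col)
    exact ⟨_, h1, f, hf1, hf3⟩
  subst ht'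
  choose g hg using hf1
  refine ⟨g, ?_⟩
  have h2 : (fun (j : Fin t') (k : Fin t') => M k (g j)) = f := by
    funext j k
    rw [← hg j]
    rfl
  rw [h2]
  exact hf3

section

variable {K ι : Type*} [Field K] [CharZero K] {p : ℕ} [hp : Fact p.Prime] {e D : ℕ}
  {lam : ι → K} {deg : ι → ℕ}

/-- Any `r + 1` of the numbers `λ² / q^deg` are multiplicatively dependent. -/
def RankLE (q : ℕ) (lam : ι → K) (deg : ι → ℕ) (r : ℕ) : Prop :=
  ∀ f : Fin (r + 1) → ι, ∃ n : Fin (r + 1) → ℤ, n ≠ 0 ∧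
    ∏ j, lam (f j) ^ (2 * n j) = (q : K) ^ (∑ j, (deg (f j) : ℤ) * n j)

lemma prod_zpow' {x : ℝ} (hx : 0 < x) {α : Type*} (s : Finset α) (f : α → ℤ) :
    ∏ l ∈ s, x ^ f l = x ^ ∑ l ∈ s, f l := by
  induction s using Finset.cons_induction with
  | empty => simp
  | cons a s ha ih => rw [Finset.prod_cons, Finset.sum_cons, ih, zpow_add₀ hx.ne']

/-- a multiplicative relation gives a linear relation between the slopes -/
lemma row_rel (he : 0 < e) (h : IsWeilFamily p e D lam deg) {t : ℕ} {f : Fin t → ι} {n : Fin t → ℤ}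
    (hn : ∏ j, lam (f j) ^ (2 * n j) = ((p ^ e : ℕ) : K) ^ (∑ j, (deg (f j) : ℤ) * n j))
    (ψ : EF lam →ₐ[ℚ] PadicAlgCl p) : ∑ j, n j * row h ψ (f j) = 0 := by
  have h2 : ∏ j, el lam (f j) ^ (2 * n j) = ((p : EF lam) ^ e) ^ (∑ j, (deg (f j) : ℤ) * n j) := by
    apply (algebraMap (EF lam) K).injective
    rw [map_prod, map_zpow₀, map_pow, map_natCast]
    simp only [map_zpow₀]
    rw [← Nat.cast_pow]
    exact hn
  have hq := pe_pos (p := p) he
  have hq0 : 0 < (p : ℝ) ^ e := zero_lt_one.trans hq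
  have hpn : ‖(p : PadicAlgCl p) ^ e‖ = ((p : ℝ) ^ e)⁻¹ := by
    have := norm_natCast_p (p := p) (e := e) 1
    rwa [pow_one, pow_one] at this
  have h3 : ∏ j, (‖ψ (el lam (f j))‖ ^ D) ^ (2 * n j) =
      (((p : ℝ) ^ e)⁻¹ ^ D) ^ (∑ j, (deg (f j) : ℤ) * n j) := by
    have h4 := congrArg (fun x => ‖ψ x‖ ^ D) h2
    simp only [map_prod, map_zpow₀, map_pow, map_natCast] at h4
    rw [norm_prod, norm_zpow, hpn] at h4
    simp only [norm_zpow] at h4
    rw [← Finset.prod_pow] at h4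
    have h5 : ∀ (x : ℝ) (m : ℤ), (x ^ m) ^ D = (x ^ D) ^ m := by
      intro x m
      rw [← zpow_natCast, ← zpow_natCast, ← zpow_mul, ← zpow_mul, mul_comm]
    simp only [h5] at h4
    exact h4
  simp only [mm_spec h, ← zpow_mul] at h3
  have h3' : (((p : ℝ) ^ e)⁻¹ ^ D) ^ (∑ j, (deg (f j) : ℤ) * n j) =
      ((p : ℝ) ^ e) ^ (-(D * ∑ j, (deg (f j) : ℤ) * n j)) := by
    rw [inv_pow, inv_zpow, ← zpow_neg, ← zpow_natCast, ← zpow_mul, mul_neg]
  rw [prod_zpow' hq0, h3'] at h3
  have h4 := zpow_right_injective₀ hq0 hq.ne' h3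
  have h5 : ∑ j, n j * row h ψ (f j) =
      2 * ∑ j, mm h ψ (f j) * n j - D * ∑ j, (deg (f j) : ℤ) * n j := by
    rw [Finset.mul_sum, Finset.mul_sum, ← Finset.sum_sub_distrib]
    exact Finset.sum_congr rfl fun j _ => by rw [row]; ring
  have h6 : ∑ j, -mm h ψ (f j) * (2 * n j) = -(2 * ∑ j, mm h ψ (f j) * n j) := by
    rw [Finset.mul_sum, ← Finset.sum_neg_distrib]
    exact Finset.sum_congr rfl fun j _ => by ring
  rw [h6] at h4
  rw [h5]
  linarith

/-- the bound for the rows if the complementary numbers for the weight `2 d` occur -/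
lemma row_dual (he : 0 < e) (h : IsWeilFamily p e D lam deg) {d : ℕ} {l l' : ι}
    (h1 : lam l * lam l' = ((p ^ e : ℕ) : K) ^ d) (h2 : deg l + deg l' = 2 * d)
    (ψ : EF lam →ₐ[ℚ] PadicAlgCl p) : |row h ψ l| ≤ (D * d : ℕ) := by
  have h3 : el lam l * el lam l' = ((p : EF lam) ^ e) ^ d := by
    apply (algebraMap (EF lam) K).injective
    rw [map_mul, map_pow, map_pow, map_natCast, ← Nat.cast_pow]
    exact h1
  have hq := pe_pos (p := p) he
  have hq0 : 0 < (p : ℝ) ^ e := zero_lt_one.trans hq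
  have h4 : mm h ψ l + mm h ψ l' = D * d := by
    have h5 := congrArg (fun x => ‖ψ x‖ ^ D) h3
    simp only [map_mul, map_pow, map_natCast, norm_mul, mul_pow] at h5
    have h5' : ((((p : ℝ) ^ e) ^ d)⁻¹) ^ D = ((p : ℝ) ^ e) ^ (-(D * d : ℤ)) := by
      rw [zpow_neg, inv_pow, ← pow_mul, mul_comm d]
      norm_cast
    rw [mm_spec h, mm_spec h, norm_natCast_p, h5', ← zpow_add₀ hq0.ne'] at h5
    have h6 := zpow_right_injective₀ hq0 hq.ne' h5
    linarith
  have h5 := mm_nonneg he h ψ l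
  have h6 := mm_le he h ψ l
  have h7 := mm_nonneg he h ψ l'
  have h8 := mm_le he h ψ l'
  have h9 : (deg l : ℤ) + deg l' = 2 * d := by exact_mod_cast h2
  have h10 : (D : ℤ) * deg l + D * deg l' = 2 * (D * d) := by
    rw [← mul_add, h9]; ring
  rw [abs_le, row]
  push_cast
  constructor <;> linarith

variable [Fintype ι]

/-- **Decomposition of long relations**, with a bound in terms of the rank. -/
theorem exists_subT (he : 0 < e) (hD : 0 < D) (h : IsWeilFamily p e D lam deg) {r B : ℕ}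
    (hr : RankLE (p ^ e) lam deg r) (hB : ∀ ψ l, |row h ψ l| ≤ B) {c : ι → ℕ}
    (hc : IsT (p ^ e) lam deg c) (hN : 2 * (2 * r * B + 1) ^ r < ∑ l, c l) :
    ∃ m : ι → ℕ, (∀ l, m l ≤ c l) ∧ 0 < ∑ l, m l ∧ ∑ l, m l < ∑ l, c l ∧
      IsT (p ^ e) lam deg m ∧ IsT (p ^ e) lam deg (c - m) := by
  classical
  -- a basis of the rows
  let rq : (EF lam →ₐ[ℚ] PadicAlgCl p) → ι → ℚ := fun ψ l => (row h ψ l : ℚ)
  obtain ⟨t, f, hf1, hf2, hf3⟩ : ∃ (t : ℕ) (f : Fin t → (ι → ℚ)),
      (∀ i, f i ∈ Set.range rq) ∧ Submodule.span ℚ (Set.range f) =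
        Submodule.span ℚ (Set.range rq) ∧ LinearIndependent ℚ f :=
    ⟨_, Submodule.exists_fun_fin_finrank_span_eq ℚ (Set.range rq)⟩
  choose g hg using hf1
  have htr : t ≤ r := by
    by_contra hcon
    obtain ⟨u, hu⟩ := exists_cols f hf3
    have hle : r + 1 ≤ t := by omega
    have hu2 := hu.comp (Fin.castLE hle) (Fin.castLE_injective hle)
    obtain ⟨n, hn0, hn⟩ := hr (fun j => u (Fin.castLE hle j))
    have h1 := row_rel he h (f := fun j => u (Fin.castLE hle j)) hn
    rw [Fintype.linearIndependent_iff] at hu2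
    apply hn0
    funext j
    have h2 := hu2 (fun j => (n j : ℚ)) (by
      funext k
      rw [Finset.sum_apply]
      have h3 := h1 (g k)
      have h4 : ∑ j, (n j : ℚ) * ((row h (g k) (u (Fin.castLE hle j)) : ℤ) : ℚ) = 0 := by
        exact_mod_cast h3
      rw [Pi.zero_apply, ← h4]
      refine Finset.sum_congr rfl fun j _ => ?_
      rw [Pi.smul_apply, smul_eq_mul, Function.comp_apply, ← hg k]) j
    exact_mod_cast h2
  have hrow0 := row_zero_of_isT he h hc
  have hbound : 2 * (2 * t * B + 1) ^ t < ∑ l, c l := by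
    refine lt_of_le_of_lt ?_ hN
    refine Nat.mul_le_mul_left _ ?_
    calc (2 * t * B + 1) ^ t ≤ (2 * r * B + 1) ^ t := by gcongr
      _ ≤ (2 * r * B + 1) ^ r := Nat.pow_le_pow_right (Nat.succ_pos _) htr
  obtain ⟨m, hm1, hm2, hm3, hm4, hm5⟩ := exists_sub (fun k => row h (g k)) deg
    (B := B) (fun k l => hB (g k) l) c (fun k => hrow0 (g k)) hbound
  have hall : ∀ ψ : EF lam →ₐ[ℚ] PadicAlgCl p, ∑ l, row h ψ l * (m l : ℤ) = 0 := by
    intro ψ
    have h1 : rq ψ ∈ Submodule.span ℚ (Set.range f) := by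
      rw [hf2]; exact Submodule.subset_span ⟨ψ, rfl⟩
    have h2 : ∀ v ∈ Submodule.span ℚ (Set.range f), ∑ l, v l * (m l : ℚ) = 0 := by
      intro v hv
      induction hv using Submodule.span_induction with
      | mem v hv =>
        obtain ⟨k, rfl⟩ := hv
        rw [← hg k]
        have := hm4 k
        simp only [rq]
        exact_mod_cast this
      | zero => simp
      | add u v _ _ hu hv =>
        simp only [Pi.add_apply, add_mul, Finset.sum_add_distrib, hu, hv, add_zero]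
      | smul t v _ hv =>
        simp only [Pi.smul_apply, smul_eq_mul, mul_assoc]
        rw [← Finset.mul_sum, hv, mul_zero]
    have h3 := h2 _ h1
    simp only [rq] at h3
    exact_mod_cast h3
  refine ⟨m, hm1, hm2, hm3, isT_of_row_zero he hD h hm5 hall, ?_⟩
  have hsub : ∀ l, ((c - m) l : ℤ) = c l - m l := fun l => by
    rw [Pi.sub_apply, Nat.cast_sub (hm1 l)]
  apply isT_of_row_zero he hD h
  · have h1 : ∑ l, deg l * (c - m) l + ∑ l, deg l * m l = ∑ l, deg l * c l := by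
      rw [← Finset.sum_add_distrib]
      exact Finset.sum_congr rfl fun l _ => by
        rw [← Nat.mul_add, Pi.sub_apply, Nat.sub_add_cancel (hm1 l)]
    have h2 := hc.1
    rw [← h1] at h2
    exact (Nat.even_add.1 h2).2 hm5
  · intro ψ
    simp only [hsub, mul_sub, Finset.sum_sub_distrib]
    rw [hrow0 ψ, hall ψ, sub_zero]

end

end Pool.Agent.L0h16.AR
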