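import Pool.Agent.R940.BGen
import Pool.Agent.L0h16.AR.Tor
import Pool.Agent.L0h16.AR.Defs

/-!
# Bounded generation of the Tate classes in terms of the angle rank
-/

set_option linter.unusedVariables false
set_option linter.unusedSectionVars false

open CategoryTheory AlgebraicGeometry CategoryTheory.Limits

universe u v

namespace Pool.Agent.L0h16.AR

open Pool.Agent.H914 Pool.Agent.H447 Pool.Agent.W534 Pool.Agent.Y163 Pool.Agent.R940 VarClass Obj
  WeilCohomology Module Polynomial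

variable {k : Type u} [Field k] {𝒱 : VarClass k} {ops : CycleOps 𝒱}
  {W : WeilCohomology.{u, v} ops} {X Y Z U S : 𝒱.Obj} {p : ℕ} [hp : Fact p.Prime]
  {Φ : FrobSystem W p} {σ : W.K →+* ℂ}

variable {ι : Type v} [Fintype ι] [DecidableEq ι] {B : HBasis W X ι} {lam : ι → W.K}

/-- long words split -/
def Splits (Φ : FrobSystem W p) (X : 𝒱.Obj) (lam : ι → W.K) (deg : ι → ℕ) (N : ℕ) : Prop :=
  ∀ c : ι → ℕ, IsT (p ^ Φ.e X) lam deg c → N < ∑ l, c l →
    ∃ m : ι → ℕ, (∀ l, m l ≤ c l) ∧ 0 < ∑ l, m l ∧ ∑ l, m l < ∑ l, c l ∧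
      IsT (p ^ Φ.e X) lam deg m ∧ IsT (p ^ Φ.e X) lam deg (c - m)

/-- **Bounded generation.** -/
theorem generated (hB : IsEig Φ B lam) {N : ℕ} (hN : Splits Φ X lam B.deg N) {n s j : ℕ} (hs : 0 < s)
    {c : W.H (pw X n)} (hc : c ∈ genTate Φ (pw X n) s j) : c ∈ GAlg Φ X N n := by
  have key : ∀ (n : ℕ) (I : Fin (n + 1) → ι), IsT (p ^ Φ.e X) lam B.deg (cnt I) →
      mon B n I ∈ GAlg Φ X N n := by
    intro n
    induction n using Nat.strong_induction_on with
    | _ n ih =>
      intro I hI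
      rcases Nat.lt_or_ge N (n + 1) with hlt | hge
      · obtain ⟨m, hm1, hm2, hm3, hm4, hm5⟩ := hN _ hI (by rw [sum_cnt_one]; exact hlt)
        obtain ⟨a, a', e, e', hperm, h1, h2⟩ := exists_subword I m hm1
        have ha : ∑ l, m l = a := by rw [← h1, sum_cnt_one]
        have ha' : ∑ l, (cnt I - m) l = a' := by rw [← h2, sum_cnt_one]
        have hlen : a + a' = n + 1 := by
          have := hperm.length_eq
          simpa using this
        rw [sum_cnt_one] at hm3
        obtain ⟨a, rfl⟩ : ∃ r, a = r + 1 := ⟨a - 1, by omega⟩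
        obtain ⟨a', rfl⟩ : ∃ r, a' = r + 1 := ⟨a' - 1, by omega⟩
        have hnd : (List.ofFn e ++ List.ofFn e').Nodup := hperm.nodup_iff.2 (List.nodup_finRange _)
        have hnd2 := List.nodup_append'.1 hnd
        obtain ⟨ε, hε⟩ := mon_split B I e e' hperm
        rw [← h1] at hm4
        rw [← h2] at hm5
        rw [hε, ← proj_eq, ← proj_eq]
        exact Subalgebra.smul_mem _ (Subalgebra.mul_mem _
          (GAlg.map (List.nodup_ofFn.1 hnd2.1) (ih a (by omega) (I ∘ e) hm4))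
          (GAlg.map (List.nodup_ofFn.1 hnd2.2.1) (ih a' (by omega) (I ∘ e') hm5))) _
      · obtain ⟨J, hJ⟩ := hI.1
        have hJ' : ∑ j, B.deg (I j) = 2 * J := by rw [sum_cnt_nat, hJ]; ring
        obtain ⟨s, hs, h1⟩ := mon_genTate Φ hB hI hJ'
        apply Algebra.subset_adjoin
        refine ⟨n, id, s, J, _, hge, Function.injective_id, hs, h1, ?_⟩
        have hid : proj X (id : Fin (n + 1) → Fin (n + 1)) = 𝟙 _ := by
          apply pw_hom_ext
          intro i
          rw [proj_eq, tup_pr, Category.id_comp]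
          rfl
        rw [hid, W.map_id]
  obtain ⟨bs, hbs⟩ := exists_monBasis B n
  rw [← bs.sum_repr c]
  refine Subalgebra.sum_mem _ fun I _ => ?_
  by_cases h0 : bs.repr c I = 0
  · rw [h0, zero_smul]; exact Subalgebra.zero_mem _
  · obtain ⟨h1, h2⟩ := isT_of_repr Φ hB hbs hs hc h0
    rw [hbs]
    exact Subalgebra.smul_mem _ (key n I h2) _

/-- **The Tate conjecture for bounded powers implies it for all powers.** -/
theorem bounded (hB : IsEig Φ B lam) {N : ℕ} (hN : Splits Φ X lam B.deg N)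
    (hT : ∀ m, m + 1 ≤ N → ∀ j, SemisimpleTateIn Φ (pw X m) j) :
    ∀ n j, SemisimpleTateIn Φ (pw X n) j := by
  have key : ∀ (n : ℕ) (I : Fin (n + 1) → ι), IsT (p ^ Φ.e X) lam B.deg (cnt I) →
      ∀ J : ℕ, ∑ j, B.deg (I j) = 2 * J → mon B n I ∈ spanCycles W (pw X n) J := by
    intro n
    induction n using Nat.strong_induction_on with
    | _ n ih =>
      intro I hI J hJ
      rcases Nat.lt_or_ge N (n + 1) with hlt | hge
      · obtain ⟨m, hm1, hm2, hm3, hm4, hm5⟩ := hN _ hI (by rw [sum_cnt_one]; exact hlt)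
        obtain ⟨a, a', e, e', hperm, h1, h2⟩ := exists_subword I m hm1
        have ha : ∑ l, m l = a := by rw [← h1, sum_cnt_one]
        have ha' : ∑ l, (cnt I - m) l = a' := by rw [← h2, sum_cnt_one]
        have hlen : a + a' = n + 1 := by
          have := hperm.length_eq
          simpa using this
        rw [sum_cnt_one] at hm3
        obtain ⟨a, rfl⟩ : ∃ r, a = r + 1 := ⟨a - 1, by omega⟩
        obtain ⟨a', rfl⟩ : ∃ r, a' = r + 1 := ⟨a' - 1, by omega⟩
        obtain ⟨ε, hε⟩ := mon_split B I e e' hperm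
        rw [← h1] at hm4
        rw [← h2] at hm5
        obtain ⟨J₁, hJ₁⟩ := hm4.1
        obtain ⟨J₂, hJ₂⟩ := hm5.1
        have hJ₁' : ∑ j, B.deg ((I ∘ e) j) = 2 * J₁ := by rw [sum_cnt_nat, hJ₁]; ring
        have hJ₂' : ∑ j, B.deg ((I ∘ e') j) = 2 * J₂ := by rw [sum_cnt_nat, hJ₂]; ring
        have hJJ : J₁ + J₂ = J := by
          have h3 : ∑ j, B.deg (I j) = ∑ j, B.deg ((I ∘ e) j) + ∑ j, B.deg ((I ∘ e') j) := by
            rw [sum_cnt_nat, sum_cnt_nat, sum_cnt_nat, h1, h2, ← Finset.sum_add_distrib]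
            refine Finset.sum_congr rfl fun l _ => ?_
            rw [← Nat.mul_add, Pi.sub_apply, Nat.add_sub_cancel' (hm1 l)]
          omega
        have h3 := map_span (tup a (fun i => pr X n (e i))) (ih a (by omega) (I ∘ e) hm4 J₁ hJ₁')
        have h4 := map_span (tup a' (fun i => pr X n (e' i)))
          (ih a' (by omega) (I ∘ e') hm5 J₂ hJ₂')
        rw [hε, ← hJJ]
        push_cast
        exact Submodule.smul_mem _ _ (span_mul h3 h4)
      · obtain ⟨s, hs, h1⟩ := mon_genTate Φ hB hI hJ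
        exact hT n hge J s hs h1
  intro n J s hs c hc
  obtain ⟨bs, hbs⟩ := exists_monBasis B n
  rw [← bs.sum_repr c]
  refine Submodule.sum_mem _ fun I _ => ?_
  by_cases h0 : bs.repr c I = 0
  · rw [h0, zero_smul]; exact Submodule.zero_mem _
  · obtain ⟨h1, h2⟩ := isT_of_repr Φ hB hbs hs hc h0
    rw [hbs]
    exact Submodule.smul_mem _ _ (key n I h2 J h1)

/-- the roots of the characteristic polynomials are the images of the eigenvalues -/
lemma root_frobPoly (hB : IsEig Φ B lam) (hint : HasIntegralPolys Φ σ X) (l : ι) :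
    (frobPoly Φ σ X 1 (B.deg l)).IsRoot (σ (lam l)) := by
  obtain ⟨P, h1, h2, h3⟩ := exists_poly hB hint l
  rw [h2, IsRoot.def, Polynomial.eval_map]
  have h4 := congrArg σ h3
  rw [map_zero, aeval_def, hom_eval₂] at h4
  rw [← h4]
  congr 1
  exact RingHom.ext_int _ _

lemma rankLE (hB : IsEig Φ B lam) (hint : HasIntegralPolys Φ σ X) {r : ℕ}
    (hr : AngleRankLE Φ σ X r) (h0 : ∀ l, lam l ≠ 0) : RankLE (p ^ Φ.e X) lam B.deg r := by
  intro f
  obtain ⟨n, hn0, hn⟩ := hr (fun j => B.deg (f j)) (fun j => σ (lam (f j)))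
    fun j => root_frobPoly hB hint (f j)
  refine ⟨n, hn0, ?_⟩
  apply σ.injective
  have hq : (p : ℂ) ^ Φ.e X ≠ 0 := pow_ne_zero _ (Nat.cast_ne_zero.2 hp.out.ne_zero)
  have h1 : ∀ j, ((σ (lam (f j))) ^ 2 / ((p : ℂ) ^ Φ.e X) ^ B.deg (f j)) ^ n j =
      σ (lam (f j)) ^ (2 * n j) / ((p : ℂ) ^ Φ.e X) ^ ((B.deg (f j) : ℤ) * n j) := by
    intro j
    rw [div_zpow, zpow_mul, zpow_mul, zpow_natCast]
    norm_cast
  simp only [h1] at hn
  rw [Finset.prod_div_distrib, div_eq_one_iff_eq (Finset.prod_ne_zero_iff.2 fun j _ =>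
    zpow_ne_zero _ hq)] at hn
  rw [map_prod, map_zpow₀, map_natCast]
  simp only [map_zpow₀]
  rw [hn]
  have h2 : ∀ (s : Finset (Fin (r + 1))) (g : Fin (r + 1) → ℤ),
      ∏ j ∈ s, ((p : ℂ) ^ Φ.e X) ^ g j = ((p : ℂ) ^ Φ.e X) ^ ∑ j ∈ s, g j := by
    intro s g
    induction s using Finset.cons_induction with
    | empty => simp
    | cons a s ha ih => rw [Finset.prod_cons, Finset.sum_cons, ih, zpow_add₀ hq]
  rw [h2]
  push_cast
  rfl

/-- eigenvalues are not zero -/
lemma lam_ne_zero {D : ℕ} (h : IsWeilFamily p (Φ.e X) D lam B.deg) (l : ι) : lam l ≠ 0 := by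
  intro h0
  have h1 := el_ne_zero (Φ.e_pos X) h l
  apply h1
  apply Subtype.ext
  rw [coe_el, h0]
  rfl

lemma tr_pow (μ : W.K) (n : ℕ) (z : W.H X) :
    W.tr X (((frob Φ X 1 - μ • 1) ^ n) z) =
      (((p ^ Φ.e X : ℕ) : W.K) ^ X.dim - μ) ^ n * W.tr X z := by
  induction n generalizing z with
  | zero => simp
  | succ n ih =>
    have h1 : W.tr X (frob Φ X 1 z) = ((p ^ Φ.e X : ℕ) : W.K) ^ X.dim * W.tr X z := by
      have := tr_iter Φ 1 z
      rw [mul_one, pow_mul, ← Nat.cast_pow] at this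
      exact this
    rw [pow_succ', Module.End.mul_apply]
    set y := ((frob Φ X 1 - μ • 1) ^ n) z with hy
    have h2 : W.tr X ((frob Φ X 1 - μ • 1) y) =
        (((p ^ Φ.e X : ℕ) : W.K) ^ X.dim - μ) * W.tr X y := by
      have h1' : W.tr X (frob Φ X 1 y) = ((p ^ Φ.e X : ℕ) : W.K) ^ X.dim * W.tr X y := by
        have := tr_iter Φ 1 y
        rw [mul_one, pow_mul, ← Nat.cast_pow] at this
        exact this
      rw [LinearMap.sub_apply, LinearMap.smul_apply, Module.End.one_apply, map_sub, map_smul,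
        smul_eq_mul, h1']
      ring
    rw [h2, hy, ih]
    ring

/-- Poincare duality for the eigenvalues -/
lemma exists_dual (hB : IsEig Φ B lam) (l : ι) :
    ∃ l', lam l * lam l' = ((p ^ Φ.e X : ℕ) : W.K) ^ X.dim ∧ B.deg l + B.deg l' = 2 * X.dim := by
  obtain ⟨l', hl'⟩ : ∃ l', W.tr X (B.b l * B.b l') ≠ 0 := by
    by_contra hcon
    push Not at hcon
    apply B.b.ne_zero l
    apply W.nondeg
    intro y
    rw [← B.b.sum_repr y, Finset.mul_sum, map_sum]
    refine Finset.sum_eq_zero fun i _ => ?_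
    rw [mul_smul_comm, map_smul, hcon, smul_zero]
  refine ⟨l', ?_, ?_⟩
  · have h1 : B.b l * B.b l' ∈ (frob Φ X 1).maxGenEigenspace (lam l * lam l') :=
      gen_bilin (β := LinearMap.mul W.K (W.H X)) (fun a b => (frob_mul' Φ 1 a b).symm) (hB l)
        (hB l')
    obtain ⟨n, hn⟩ := (Module.End.mem_maxGenEigenspace _ _ _).1 h1
    have h2 := tr_pow (Φ := Φ) (lam l * lam l') n (B.b l * B.b l')
    rw [hn, map_zero] at h2
    have h3 := (mul_eq_zero.1 h2.symm).resolve_right hl'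
    have hn0 : n ≠ 0 := by
      rintro rfl
      rw [pow_zero] at h3
      exact one_ne_zero h3
    exact (sub_eq_zero.1 ((pow_eq_zero_iff hn0).1 h3)).symm
  · by_contra hne
    exact hl' (W.tr_eq_zero (W.mul_mem (B.mem l) (B.mem l')) hne)

/-- long words split, with the bound in terms of the angle rank -/
lemma splits (hB : IsEig Φ B lam) (hRH : RiemannHyp Φ σ X) (hint : HasIntegralPolys Φ σ X)
    {D : ℕ} (hD : IsSlopeDenominator Φ σ X D) {r : ℕ} (hr : AngleRankLE Φ σ X r) :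
    Splits Φ X lam B.deg (rankBound r D X.dim) := by
  have hF := weilFamily hB hRH hint hD
  intro c hc hN
  refine exists_subT (Φ.e_pos X) hD.1 hF (rankLE hB hint hr (lam_ne_zero hF)) (r := r)
    (B := D * X.dim) (fun ψ l => ?_) hc ?_
  · obtain ⟨l', h1, h2⟩ := exists_dual hB l
    exact row_dual (Φ.e_pos X) hF h1 h2 ψ
  · have : 2 * (2 * r * (D * X.dim) + 1) ^ r = rankBound r D X.dim := by
      rw [rankBound]
      congr 2
      ring
    rw [this]
    exact hN

end Pool.Agent.L0h16.AR
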