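import Pool.Agent.L0h16.AR.Steinitz

/-!
# Decomposition of long solutions of linear equations, with a bound which does not depend on the
# number of the unknowns
-/

namespace Pool.Agent.L0h16.AR

open Finset

/-- a word with given numbers of letters -/
lemma exists_word {ι : Type*} [Fintype ι] [DecidableEq ι] (c : ι → ℕ) :
    ∃ w : Fin (∑ l, c l) → ι, ∀ l, (univ.filter fun j => w j = l).card = c l := by
  have h1 : Fintype.card (Σ l, Fin (c l)) = ∑ l, c l := by
    rw [Fintype.card_sigma]
    exact Finset.sum_congr rfl fun l _ => Fintype.card_fin _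
  let e : Fin (∑ l, c l) ≃ Σ l, Fin (c l) := (Fintype.equivFinOfCardEq h1).symm
  refine ⟨fun j => (e j).1, fun l => ?_⟩
  have h2 : (univ.filter fun j => (e j).1 = l).card =
      (univ.filter fun x : (Σ l, Fin (c l)) => x.1 = l).card := by
    refine Finset.card_bij (fun j _ => e j) (fun j hj => ?_) (fun i _ j _ h => e.injective h)
      (fun x hx => ⟨e.symm x, ?_, e.apply_symm_apply x⟩)
    · exact Finset.mem_filter.2 ⟨Finset.mem_univ _, (Finset.mem_filter.1 hj).2⟩
    · refine Finset.mem_filter.2 ⟨Finset.mem_univ _, ?_⟩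
      rw [e.apply_symm_apply]
      exact (Finset.mem_filter.1 hx).2
  rw [h2]
  have h3 : (univ.filter fun x : (Σ l, Fin (c l)) => x.1 = l) =
      (univ : Finset (Fin (c l))).map ⟨fun i => (⟨l, i⟩ : Σ l, Fin (c l)), fun i j h => by
        simpa using h⟩ := by
    ext ⟨l', i⟩
    simp only [Finset.mem_filter, Finset.mem_univ, true_and, Finset.mem_map]
    constructor
    · rintro rfl
      exact ⟨i, rfl⟩
    · rintro ⟨j, hj⟩
      exact (congrArg Sigma.fst hj).symm
  rw [h3, Finset.card_map, Finset.card_univ, Fintype.card_fin]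

/-- sums over a set of positions -/
lemma sum_positions {ι : Type*} [Fintype ι] [DecidableEq ι] {n : ℕ} (w : Fin n → ι)
    (T : Finset (Fin n)) {R : Type*} [CommSemiring R] (f : ι → R) :
    ∑ l, f l * ((T.filter fun j => w j = l).card : R) = ∑ j ∈ T, f (w j) := by
  rw [← Finset.sum_fiberwise T w]
  refine Finset.sum_congr rfl fun l _ => ?_
  rw [Finset.sum_congr rfl fun j hj => by rw [(Finset.mem_filter.1 hj).2], Finset.sum_const,
    nsmul_eq_mul, mul_comm]

/-- **Decomposition of long solutions**: the bound `2 (2 r B + 1) ^ r` depends only on the number `r`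
of the equations and on the size `B` of the coefficients. -/
theorem exists_sub {ι : Type*} [Fintype ι] [DecidableEq ι] {r : ℕ} (a : Fin r → ι → ℤ) (d : ι → ℕ)
    {B : ℕ} (hB : ∀ k l, |a k l| ≤ B) (c : ι → ℕ) (ha : ∀ k, ∑ l, a k l * c l = 0)
    (hN : 2 * (2 * r * B + 1) ^ r < ∑ l, c l) :
    ∃ m : ι → ℕ, (∀ l, m l ≤ c l) ∧ 0 < ∑ l, m l ∧ ∑ l, m l < ∑ l, c l ∧
      (∀ k, ∑ l, a k l * (m l : ℤ) = 0) ∧ Even (∑ l, d l * m l) := by
  obtain ⟨n, hn, w, hw⟩ : ∃ n, n = ∑ l, c l ∧ ∃ w : Fin n → ι,
      ∀ l, (univ.filter fun j => w j = l).card = c l := ⟨_, rfl, exists_word c⟩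
  rw [← hn] at hN ⊢
  have hw' : ∀ (R : Type) [CommSemiring R] (f : ι → R), ∑ l, f l * (c l : R) = ∑ j, f (w j) := by
    intro R _ f
    rw [← sum_positions w univ f]
    exact Finset.sum_congr rfl fun l _ => by rw [hw]
  obtain ⟨S, hS1, hS2, hS3⟩ := steinitz (fun j k => ((a k (w j) : ℤ) : ℚ)) (B := (B : ℚ))
    (Nat.cast_nonneg B) (fun j k => by
      have := hB k (w j)
      have h2 : ((|a k (w j)| : ℤ) : ℚ) ≤ ((B : ℤ) : ℚ) := by exact_mod_cast this
      rw [Int.cast_abs] at h2
      simpa using h2) (fun k => by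
      have h1 := hw' ℤ (a k)
      have h2 := ha k
      rw [h1] at h2
      exact_mod_cast h2)
  -- the sums over the sets
  let f : ℕ → Fin r → ℤ := fun t k => ∑ j ∈ S t, a k (w j)
  have hf : ∀ t, t ≤ n → ∀ k, |f t k| ≤ r * B := by
    intro t ht k
    have h1 := hS3 t ht k
    have h2 : ((|f t k| : ℤ) : ℚ) ≤ ((r * B : ℤ) : ℚ) := by
      rw [Int.cast_abs]
      simp only [f]
      push_cast
      exact h1
    exact_mod_cast h2
  let g : Fin n → (Fin r → Fin (2 * r * B + 1)) × Fin 2 := fun t =>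
    (fun k => ⟨(f t k + r * B).toNat, by
      have h1 := abs_le.1 (hf t t.2.le k)
      rw [Int.toNat_lt (by linarith [h1.1])]
      push_cast
      linarith [h1.2]⟩,
      ⟨(∑ j ∈ S t, d (w j)) % 2, Nat.mod_lt _ (by norm_num)⟩)
  have hcard : Fintype.card ((Fin r → Fin (2 * r * B + 1)) × Fin 2) < Fintype.card (Fin n) := by
    rw [Fintype.card_prod, Fintype.card_fun, Fintype.card_fin, Fintype.card_fin, Fintype.card_fin,
      Fintype.card_fin]
    omega
  obtain ⟨i, j, hne, hij⟩ := Fintype.exists_ne_map_eq_of_card_lt g hcard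
  wlog hlt : i < j generalizing i j
  · exact this j i hne.symm hij.symm (lt_of_le_of_ne (not_lt.1 hlt) hne.symm)
  have hfk : ∀ k, f i k = f j k := by
    intro k
    have h1 := congrArg (fun x : (Fin r → Fin (2 * r * B + 1)) × Fin 2 => (x.1 k).val) hij
    simp only [g] at h1
    have h2 := abs_le.1 (hf i i.2.le k)
    have h3 := abs_le.1 (hf j j.2.le k)
    have h4 : f i k + r * B = f j k + r * B := by
      rw [← Int.toNat_of_nonneg (show 0 ≤ f i k + r * B by linarith [h2.1]),
        ← Int.toNat_of_nonneg (show 0 ≤ f j k + r * B by linarith [h3.1]), h1]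
    linarith
  have hpar : (∑ x ∈ S i, d (w x)) % 2 = (∑ x ∈ S j, d (w x)) % 2 := by
    have h1 := congrArg (fun x : (Fin r → Fin (2 * r * B + 1)) × Fin 2 => x.2.val) hij
    exact h1
  have hsub : S i ⊆ S j := by
    have key : ∀ t, (i : ℕ) ≤ t → t ≤ j → S i ⊆ S t := by
      intro t h1
      induction t, h1 using Nat.le_induction with
      | base => intro _; exact Finset.Subset.refl _
      | succ t h1 ih =>
        intro h2
        exact (ih (by omega)).trans (hS1 t (by have := j.2; omega))
    exact key j hlt.le le_rfl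
  set T := S j \ S i with hT
  have hTc : T.card = j - i := by
    rw [hT, Finset.card_sdiff_of_subset hsub, hS2 _ j.2.le, hS2 _ i.2.le]
  have hTs : ∀ (R : Type) [CommRing R] (F : ι → R),
      ∑ x ∈ T, F (w x) = ∑ x ∈ S j, F (w x) - ∑ x ∈ S i, F (w x) := by
    intro R _ F
    rw [← Finset.sum_sdiff hsub, add_sub_cancel_right]
  have hlen : ∑ l, (T.filter fun x => w x = l).card = T.card := by
    have h1 := sum_positions w T (fun _ => (1 : ℕ))
    simp only [one_mul, Nat.cast_id, Finset.sum_const, smul_eq_mul, mul_one] at h1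
    exact h1
  have hlt' : (i : ℕ) < j := hlt
  refine ⟨fun l => (T.filter fun x => w x = l).card, fun l => ?_, ?_, ?_, fun k => ?_, ?_⟩
  · rw [← hw l]
    exact Finset.card_le_card (Finset.filter_subset_filter _ (Finset.subset_univ _))
  · rw [hlen, hTc]; omega
  · rw [hlen, hTc]
    have := j.2
    omega
  · rw [sum_positions w T (a k), hTs ℤ (a k)]
    have := hfk k
    simp only [f] at this
    rw [this, sub_self]
  · have h1 := sum_positions w T d
    simp only [Nat.cast_id] at h1
    rw [h1]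
    have h2 : ∑ x ∈ T, d (w x) + ∑ x ∈ S i, d (w x) = ∑ x ∈ S j, d (w x) :=
      Finset.sum_sdiff hsub
    rw [Nat.even_iff]
    omega

end Pool.Agent.L0h16.AR
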