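import Pool.Agent.L0h16.AR.Gen

/-!
# The angle rank is at most half of the total Betti number; the final theorems
-/

set_option linter.unusedVariables false
set_option linter.unusedSectionVars false

open CategoryTheory AlgebraicGeometry CategoryTheory.Limits

universe u v

namespace Pool.Agent.L0h16.AR

open Pool.Agent.H914 Pool.Agent.H447 Pool.Agent.W534 Pool.Agent.Y163 Pool.Agent.R940 VarClass Obj
  WeilCohomology Module Polynomial

variable {k : Type u} [Field k] {𝒱 : VarClass k} {ops : CycleOps 𝒱}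
  {W : WeilCohomology.{u, v} ops} {X Y Z U S : 𝒱.Obj} {p : ℕ} [hp : Fact p.Prime]
  {Φ : FrobSystem W p} {σ : W.K →+* ℂ}

/-- every eigenvalue belongs to an element of the basis -/
lemma exists_index {ι : Type v} [Fintype ι] {B : HBasis W X ι} {lam : ι → W.K} [IsAlgClosed W.K]
    (hB : IsEig Φ B lam) {i : ℕ} {α : ℂ} (hα : (frobPoly Φ σ X 1 i).IsRoot α) :
    ∃ l, B.deg l = i ∧ σ (lam l) = α := by
  have hmon : ((frobOn Φ X 1 i).charpoly.map σ).Monic := (LinearMap.charpoly_monic _).map σ
  have h1 : α ∈ ((frobOn Φ X 1 i).charpoly.map σ).roots := by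
    rw [mem_roots hmon.ne_zero, ← frobPoly_eq]
    exact hα
  rw [(IsAlgClosed.splits _).roots_map σ] at h1
  obtain ⟨μ, hμ, rfl⟩ := Multiset.mem_map.1 h1
  rw [mem_roots (LinearMap.charpoly_monic _).ne_zero,
    ← Module.End.hasEigenvalue_iff_isRoot_charpoly] at hμ
  obtain ⟨v, hv⟩ := hμ.exists_hasEigenvector
  have hv0 : (v : W.H X) ≠ 0 := fun h => hv.2 (Subtype.ext h)
  have hv1 : frob Φ X 1 (v : W.H X) = μ • (v : W.H X) := congrArg Subtype.val hv.apply_eq_smul
  obtain ⟨l, hl⟩ : ∃ l, B.b.repr (v : W.H X) l ≠ 0 := by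
    by_contra hcon
    push Not at hcon
    apply hv0
    apply B.b.repr.injective
    rw [map_zero]
    ext l
    exact hcon l
  refine ⟨l, ?_, ?_⟩
  · by_contra hne
    exact hl (repr_zero (W.isInternal X).submodule_iSupIndep B.b B.deg B.mem v.2 hne)
  · by_contra hne
    apply hl
    refine repr_zero (Module.End.independent_maxGenEigenspace (frob Φ X 1)) B.b lam hB
      (a₀ := μ) ?_ fun h => hne (by rw [h])
    rw [Module.End.mem_maxGenEigenspace]
    refine ⟨1, ?_⟩
    rw [pow_one, LinearMap.sub_apply, hv1]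
    simp

/-- the complex conjugate of an eigenvalue is an eigenvalue -/
lemma conj_root (hint : HasIntegralPolys Φ σ X) {i : ℕ} {α : ℂ}
    (hα : (frobPoly Φ σ X 1 i).IsRoot α) :
    (frobPoly Φ σ X 1 i).IsRoot ((starRingEnd ℂ) α) := by
  obtain ⟨P, hP⟩ := hint i
  rw [hP, IsRoot.def, Polynomial.eval_map] at hα ⊢
  have h1 := congrArg (starRingEnd ℂ) hα
  rw [map_zero, hom_eval₂] at h1
  rw [← h1]
  congr 1
  exact RingHom.ext_int _ _

/-- **The angle rank is at most half of the total Betti number.** -/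
theorem angleRank_half [IsAlgClosed W.K] (hRH : RiemannHyp Φ σ X) (hint : HasIntegralPolys Φ σ X) :
    AngleRankLE Φ σ X (finrank W.K (W.H X) / 2) := by
  classical
  obtain ⟨ι, hfin, B, lam, hB⟩ := exists_ebasis Φ X
  have hft : Fintype ι := Fintype.ofFinite ι
  have hcard : Fintype.card ι = finrank W.K (W.H X) := (Module.finrank_eq_card_basis B.b).symm
  rw [← hcard]
  set r := Fintype.card ι / 2 with hr
  intro i α hα
  by_contra hcon
  push Not at hcon
  have hp0 : (0 : ℝ) < p := by exact_mod_cast hp.out.pos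
  set q : ℂ := (p : ℂ) ^ Φ.e X with hq
  have hq0 : q ≠ 0 := pow_ne_zero _ (Nat.cast_ne_zero.2 hp.out.ne_zero)
  have habs : ∀ j, α j * (starRingEnd ℂ) (α j) = q ^ i j := by
    intro j
    have h1 := hRH 1 one_pos (i j) (α j) (hα j)
    rw [Complex.mul_conj, Complex.normSq_eq_norm_sq, h1, card, mul_one]
    push_cast
    rfl
  have hα0 : ∀ j, α j ≠ 0 := by
    intro j h
    have h1 := habs j
    rw [h, zero_mul] at h1
    exact pow_ne_zero _ hq0 h1.symm
  choose l hl1 hl2 using fun j => exists_index hB (hα j)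
  choose l' hl1' hl2' using fun j => exists_index hB (conj_root hint (hα j))
  set u : Fin (r + 1) → ℂ := fun j => α j ^ 2 / q ^ i j with hu
  have hu0 : ∀ j, u j ≠ 0 := fun j => div_ne_zero (pow_ne_zero _ (hα0 j)) (pow_ne_zero _ hq0)
  let F : ι → ℂ := fun x => σ (lam x) ^ 2 / q ^ B.deg x
  have hF : ∀ j, F (l j) = u j := fun j => by simp only [F, hl1, hl2, hu]
  have hF' : ∀ j, F (l' j) = (u j)⁻¹ := by
    intro j
    simp only [F, hl1', hl2', hu]
    rw [inv_div, div_eq_div_iff (pow_ne_zero _ hq0) (pow_ne_zero _ (hα0 j)), ← habs j]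
    ring
  have hpr : ∀ (j : Fin (r + 1)) (m : ℤ), ∏ x, u x ^ ((Pi.single j m : Fin (r + 1) → ℤ) x) =
      u j ^ m := by
    intro j m
    rw [Finset.prod_eq_single j]
    · rw [Pi.single_eq_same]
    · intro x _ hx
      rw [Pi.single_eq_of_ne hx, zpow_zero]
    · intro h; exact absurd (Finset.mem_univ j) h
  have hplus : ∀ j j', u j * u j' ≠ 1 := by
    intro j j' h
    refine hcon (Pi.single j 1 + Pi.single j' 1) ?_ ?_
    · intro h0
      have h1 := congrFun h0 j
      rw [Pi.add_apply, Pi.single_eq_same, Pi.zero_apply] at h1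
      by_cases hjj : j = j'
      · subst hjj
        rw [Pi.single_eq_same] at h1
        omega
      · rw [Pi.single_eq_of_ne hjj] at h1
        omega
    · have : ∀ x, u x ^ ((Pi.single j 1 + Pi.single j' 1 : Fin (r + 1) → ℤ) x) =
          u x ^ ((Pi.single j 1 : Fin (r + 1) → ℤ) x) *
            u x ^ ((Pi.single j' 1 : Fin (r + 1) → ℤ) x) := by
        intro x
        rw [Pi.add_apply, zpow_add₀ (hu0 x)]
      rw [Finset.prod_congr rfl fun x _ => this x, Finset.prod_mul_distrib, hpr, hpr, zpow_one,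
        zpow_one]
      exact h
  have hminus : ∀ j j', u j = u j' → j = j' := by
    intro j j' h
    by_contra hne
    refine hcon (Pi.single j 1 + Pi.single j' (-1)) ?_ ?_
    · intro h0
      have h1 := congrFun h0 j
      rw [Pi.add_apply, Pi.single_eq_same, Pi.zero_apply, Pi.single_eq_of_ne hne] at h1
      omega
    · have : ∀ x, u x ^ ((Pi.single j 1 + Pi.single j' (-1) : Fin (r + 1) → ℤ) x) =
          u x ^ ((Pi.single j 1 : Fin (r + 1) → ℤ) x) *
            u x ^ ((Pi.single j' (-1) : Fin (r + 1) → ℤ) x) := by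
        intro x
        rw [Pi.add_apply, zpow_add₀ (hu0 x)]
      rw [Finset.prod_congr rfl fun x _ => this x, Finset.prod_mul_distrib, hpr, hpr, zpow_one,
        zpow_neg_one, h, mul_inv_cancel₀ (hu0 j')]
  let g : Fin (r + 1) × Bool → ι := fun x => if x.2 then l x.1 else l' x.1
  have hg : Function.Injective g := by
    rintro ⟨j, c⟩ ⟨j', c'⟩ h
    have h1 := congrArg F h
    cases c <;> cases c' <;> simp only [g, if_true, if_false, Bool.false_eq_true, hF, hF'] at h1
    · rw [hminus j j' (inv_injective h1)]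
    · exact absurd (by rw [← h1, mul_inv_cancel₀ (hu0 j)]) (hplus j j')
    · exact absurd (by rw [h1, inv_mul_cancel₀ (hu0 j')]) (hplus j j')
    · rw [hminus j j' h1]
  have h1 := Fintype.card_le_of_injective g hg
  rw [Fintype.card_prod, Fintype.card_fin, Fintype.card_bool] at h1
  omega

end Pool.Agent.L0h16.AR
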