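import Mathlib

/-!
# The lemma of Steinitz, for rational vectors (Grinberg and Sevastyanov)
-/

namespace Pool.Agent.L0h16.AR

open Finset

variable {α : Type*} [DecidableEq α] {r : ℕ}

/-- coefficients in `[0, 1]` on `s` with `∑ μ v = 0` and `∑ μ = t` -/
structure Coef (v : α → Fin r → ℚ) (s : Finset α) (t : ℚ) (μ : α → ℚ) : Prop where
  nonneg : ∀ a ∈ s, 0 ≤ μ a
  le_one : ∀ a ∈ s, μ a ≤ 1
  sum_vec : ∀ k, ∑ a ∈ s, μ a * v a k = 0
  sum_eq : ∑ a ∈ s, μ a = t

/-- the positions with a fractional coefficient -/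
def frac (s : Finset α) (μ : α → ℚ) : Finset α := s.filter fun a => 0 < μ a ∧ μ a < 1

/-- a relation with sum zero on a set with more than `r + 1` elements -/
lemma exists_rel (v : α → Fin r → ℚ) (F : Finset α) (hF : r + 1 < F.card) :
    ∃ w : α → ℚ, (∀ a, a ∉ F → w a = 0) ∧ (∃ a ∈ F, w a ≠ 0) ∧
      (∀ k, ∑ a ∈ F, w a * v a k = 0) ∧ ∑ a ∈ F, w a = 0 := by
  let L : (F → ℚ) →ₗ[ℚ] ((Fin r → ℚ) × ℚ) :=
    { toFun := fun w => (fun k => ∑ a : F, w a * v a k, ∑ a : F, w a)
      map_add' := by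
        intro x y
        refine Prod.ext (funext fun k => ?_) ?_
        · simp [add_mul, Finset.sum_add_distrib]
        · simp [Finset.sum_add_distrib]
      map_smul' := by
        intro c x
        refine Prod.ext (funext fun k => ?_) ?_
        · simp [Finset.mul_sum, mul_assoc]
        · simp [Finset.mul_sum] }
  have h1 : Module.finrank ℚ ((Fin r → ℚ) × ℚ) < Module.finrank ℚ (F → ℚ) := by
    rw [Module.finrank_prod, Module.finrank_fintype_fun_eq_card, Module.finrank_fintype_fun_eq_card,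
      Fintype.card_fin, Module.finrank_self, Fintype.card_coe]
    exact hF
  have h2 := LinearMap.ker_ne_bot_of_finrank_lt (f := L) h1
  obtain ⟨w, hw, hw0⟩ := (Submodule.ne_bot_iff _).1 h2
  rw [LinearMap.mem_ker] at hw
  have hk : ∀ k, ∑ a : F, w a * v a k = 0 := fun k => congrFun (congrArg Prod.fst hw) k
  have hs : ∑ a : F, w a = 0 := congrArg Prod.snd hw
  refine ⟨fun a => if h : a ∈ F then w ⟨a, h⟩ else 0, fun a ha => dif_neg ha, ?_, fun k => ?_, ?_⟩
  · by_contra hcon
    push Not at hcon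
    apply hw0
    funext a
    have := hcon a.1 a.2
    rw [dif_pos a.2] at this
    exact this
  · rw [← Finset.sum_coe_sort F]
    exact (Finset.sum_congr rfl fun a _ => by beta_reduce; rw [dif_pos a.2]).trans (hk k)
  · rw [← Finset.sum_coe_sort F]
    exact (Finset.sum_congr rfl fun a _ => by rw [dif_pos a.2]).trans hs

/-- one can reduce the number of fractional coefficients -/
lemma Coef.reduce {v : α → Fin r → ℚ} {s : Finset α} {t : ℚ} {μ : α → ℚ} (h : Coef v s t μ)
    (hF : r + 1 < (frac s μ).card) :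
    ∃ μ', Coef v s t μ' ∧ (frac s μ').card < (frac s μ).card := by
  obtain ⟨w, hw1, ⟨a₀, ha₀, hw0⟩, hw3, hw4⟩ := exists_rel v (frac s μ) hF
  set F := frac s μ with hFdef
  have hFs : F ⊆ s := Finset.filter_subset _ _
  have hsum : ∀ f : α → ℚ, ∑ a ∈ s, w a * f a = ∑ a ∈ F, w a * f a := by
    intro f
    refine (Finset.sum_subset hFs fun a _ ha => ?_).symm
    rw [hw1 a ha, zero_mul]
  -- the steps
  set G : Finset α := F.filter fun a => w a ≠ 0 with hG
  have hGne : G.Nonempty := ⟨a₀, Finset.mem_filter.2 ⟨ha₀, hw0⟩⟩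
  let st : α → ℚ := fun a => if 0 < w a then (1 - μ a) / w a else μ a / (-(w a))
  have hpos : ∀ a ∈ G, 0 < st a := by
    intro a ha
    obtain ⟨h1, h2⟩ := Finset.mem_filter.1 ha
    obtain ⟨-, h3, h4⟩ := Finset.mem_filter.1 h1
    simp only [st]
    split_ifs with h5
    · exact div_pos (by linarith) h5
    · exact div_pos h3 (by
        have := lt_of_le_of_ne (not_lt.1 h5) h2
        linarith)
  obtain ⟨a₁, ha₁, hmin⟩ := Finset.exists_min_image G st hGne
  set T := st a₁ with hT
  have hT0 : 0 < T := hpos a₁ ha₁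
  have hbd : ∀ a ∈ F, 0 ≤ μ a + T * w a ∧ μ a + T * w a ≤ 1 := by
    intro a ha
    obtain ⟨-, h3, h4⟩ := Finset.mem_filter.1 ha
    by_cases h0 : w a = 0
    · rw [h0, mul_zero, add_zero]
      exact ⟨h3.le, h4.le⟩
    · have h5 := hmin a (Finset.mem_filter.2 ⟨ha, h0⟩)
      simp only [st] at h5
      split_ifs at h5 with h6
      · rw [le_div_iff₀ h6] at h5
        refine ⟨?_, by linarith⟩
        have : 0 < T * w a := mul_pos hT0 h6
        linarith
      · have h7 : w a < 0 := lt_of_le_of_ne (not_lt.1 h6) h0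
        rw [le_div_iff₀ (by linarith)] at h5
        have : T * w a < 0 := mul_neg_of_pos_of_neg hT0 h7
        exact ⟨by linarith, by linarith⟩
  refine ⟨fun a => μ a + T * w a, ⟨?_, ?_, ?_, ?_⟩, ?_⟩
  · intro a ha
    by_cases haF : a ∈ F
    · exact (hbd a haF).1
    · rw [hw1 a haF, mul_zero, add_zero]; exact h.nonneg a ha
  · intro a ha
    by_cases haF : a ∈ F
    · exact (hbd a haF).2
    · rw [hw1 a haF, mul_zero, add_zero]; exact h.le_one a ha
  · intro k
    have : ∑ a ∈ s, (μ a + T * w a) * v a k =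
        ∑ a ∈ s, μ a * v a k + T * ∑ a ∈ s, w a * v a k := by
      rw [Finset.mul_sum, ← Finset.sum_add_distrib]
      exact Finset.sum_congr rfl fun a _ => by ring
    rw [this, h.sum_vec, hsum (fun a => v a k), hw3, mul_zero, add_zero]
  · have h8 := hsum (fun _ => 1)
    simp only [mul_one] at h8
    rw [Finset.sum_add_distrib, ← Finset.mul_sum, h8, hw4, mul_zero, add_zero, h.sum_eq]
  · refine Finset.card_lt_card ?_
    rw [Finset.ssubset_iff_of_subset]
    · obtain ⟨h1, h2⟩ := Finset.mem_filter.1 ha₁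
      refine ⟨a₁, h1, fun hcon => ?_⟩
      obtain ⟨-, h3, h4⟩ := Finset.mem_filter.1 hcon
      have hTe : T = if 0 < w a₁ then (1 - μ a₁) / w a₁ else μ a₁ / (-(w a₁)) := rfl
      split_ifs at hTe with h6
      · have : T * w a₁ = 1 - μ a₁ := by rw [hTe]; field_simp
        linarith
      · have h7 : w a₁ < 0 := lt_of_le_of_ne (not_lt.1 h6) h2
        have : T * w a₁ = - μ a₁ := by
          rw [hTe]
          field_simp
        linarith
    · intro a ha
      obtain ⟨h1, h2, h3⟩ := Finset.mem_filter.1 ha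
      by_contra haF
      simp only [hw1 a haF, mul_zero, add_zero] at h2 h3
      exact haF (Finset.mem_filter.2 ⟨h1, h2, h3⟩)

/-- coefficients with at most `r + 1` fractional ones -/
lemma Coef.few {v : α → Fin r → ℚ} {s : Finset α} {t : ℚ} {μ : α → ℚ} (h : Coef v s t μ) :
    ∃ μ', Coef v s t μ' ∧ (frac s μ').card ≤ r + 1 := by
  induction hn : (frac s μ).card using Nat.strong_induction_on generalizing μ with
  | _ n ih =>
    by_cases hle : n ≤ r + 1
    · exact ⟨μ, h, by omega⟩
    · obtain ⟨μ', h1, h2⟩ := h.reduce (by omega)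
      exact ih _ (by omega) h1 rfl

/-- **One step in the lemma of Steinitz.** -/
lemma Coef.step {v : α → Fin r → ℚ} {s : Finset α} {μ : α → ℚ} (h : Coef v s (s.card - r) μ)
    (hs : r < s.card) : ∃ a ∈ s, ∃ μ', Coef v (s.erase a) ((s.erase a).card - r) μ' := by
  have hcard : (0 : ℚ) < s.card - r := by
    have : (r : ℚ) < s.card := by exact_mod_cast hs
    linarith
  have hcard1 : (0 : ℚ) ≤ s.card - r - 1 := by
    have : (r : ℚ) + 1 ≤ s.card := by exact_mod_cast hs
    linarith
  set τ : ℚ := (s.card - r - 1) / (s.card - r) with hτ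
  have hτ0 : 0 ≤ τ := div_nonneg hcard1 hcard.le
  have hτ1 : τ ≤ 1 := by rw [hτ, div_le_one hcard]; linarith
  have h1 : Coef v s (s.card - r - 1) (fun a => τ * μ a) := by
    refine ⟨fun a ha => mul_nonneg hτ0 (h.nonneg a ha), fun a ha => ?_, fun k => ?_, ?_⟩
    · calc τ * μ a ≤ 1 * 1 := mul_le_mul hτ1 (h.le_one a ha) (h.nonneg a ha) zero_le_one
        _ = 1 := one_mul 1
    · have : ∑ a ∈ s, τ * μ a * v a k = τ * ∑ a ∈ s, μ a * v a k := by
        rw [Finset.mul_sum]
        exact Finset.sum_congr rfl fun a _ => by ring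
      rw [this, h.sum_vec, mul_zero]
    · rw [← Finset.mul_sum, h.sum_eq, hτ, div_mul_cancel₀ _ hcard.ne']
  obtain ⟨μ', h2, h3⟩ := h1.few
  -- some coefficient is zero
  obtain ⟨a, ha, ha0⟩ : ∃ a ∈ s, μ' a = 0 := by
    by_contra hcon
    push Not at hcon
    have h4 : ∀ a ∈ s \ frac s μ', μ' a = 1 := by
      intro a ha
      obtain ⟨h5, h6⟩ := Finset.mem_sdiff.1 ha
      have h7 : 0 < μ' a := lt_of_le_of_ne (h2.nonneg a h5) (hcon a h5).symm
      by_contra h8
      exact h6 (Finset.mem_filter.2 ⟨h5, h7, lt_of_le_of_ne (h2.le_one a h5) h8⟩)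
    have hFs : frac s μ' ⊆ s := Finset.filter_subset _ _
    have h5 := h2.sum_eq
    rw [← Finset.sum_sdiff hFs, Finset.sum_congr rfl h4, Finset.sum_const, nsmul_eq_mul, mul_one,
      Finset.card_sdiff_of_subset hFs, Nat.cast_sub (Finset.card_le_card hFs)] at h5
    have h6 : ((frac s μ').card : ℚ) ≤ r + 1 := by exact_mod_cast h3
    have h7 : ∑ a ∈ frac s μ', μ' a ≤ 0 := by linarith
    have h8 : frac s μ' = ∅ := by
      by_contra h9
      obtain h10 := Finset.nonempty_iff_ne_empty.2 h9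
      have := Finset.sum_pos (fun a ha => (Finset.mem_filter.1 ha).2.1) h10
      linarith
    rw [h8, Finset.card_empty, Finset.sum_empty] at h5
    push_cast at h5
    have : (0 : ℚ) ≤ r := Nat.cast_nonneg r
    linarith
  refine ⟨a, ha, μ', ⟨fun b hb => h2.nonneg b (Finset.mem_of_mem_erase hb),
    fun b hb => h2.le_one b (Finset.mem_of_mem_erase hb), fun k => ?_, ?_⟩⟩
  · rw [← h2.sum_vec k, ← Finset.add_sum_erase _ _ ha, ha0, zero_mul, zero_add]
  · have h4 := h2.sum_eq
    rw [← Finset.add_sum_erase _ _ ha, ha0, zero_add] at h4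
    rw [h4, Finset.card_erase_of_mem ha, Nat.cast_sub (by omega)]
    push_cast
    ring

omit [DecidableEq α] in
/-- the partial sum is bounded -/
lemma Coef.bound {v : α → Fin r → ℚ} {s : Finset α} {μ : α → ℚ} (h : Coef v s (s.card - r) μ)
    {B : ℚ} (hB : ∀ a k, |v a k| ≤ B) (k : Fin r) : |∑ a ∈ s, v a k| ≤ r * B := by
  have h1 : ∑ a ∈ s, v a k = ∑ a ∈ s, (1 - μ a) * v a k := by
    have : ∑ a ∈ s, (1 - μ a) * v a k = ∑ a ∈ s, v a k - ∑ a ∈ s, μ a * v a k := by
      rw [← Finset.sum_sub_distrib]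
      exact Finset.sum_congr rfl fun a _ => by ring
    rw [this, h.sum_vec, sub_zero]
  rw [h1]
  calc |∑ a ∈ s, (1 - μ a) * v a k| ≤ ∑ a ∈ s, |(1 - μ a) * v a k| :=
        Finset.abs_sum_le_sum_abs _ _
    _ ≤ ∑ a ∈ s, (1 - μ a) * B := by
        refine Finset.sum_le_sum fun a ha => ?_
        have h2 : 0 ≤ 1 - μ a := by linarith [h.le_one a ha]
        rw [abs_mul, abs_of_nonneg h2]
        exact mul_le_mul_of_nonneg_left (hB a k) h2
    _ = r * B := by
        rw [← Finset.sum_mul, Finset.sum_sub_distrib, h.sum_eq, Finset.sum_const, nsmul_eq_mul,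
          mul_one]
        ring

/-- **The lemma of Steinitz.** -/
theorem steinitz {n : ℕ} (v : Fin n → Fin r → ℚ) {B : ℚ} (hB0 : 0 ≤ B)
    (hB : ∀ a k, |v a k| ≤ B) (h0 : ∀ k, ∑ a, v a k = 0) :
    ∃ S : ℕ → Finset (Fin n), (∀ t, t < n → S t ⊆ S (t + 1)) ∧ (∀ t, t ≤ n → (S t).card = t) ∧
      ∀ t, t ≤ n → ∀ k, |∑ a ∈ S t, v a k| ≤ r * B := by
  have hr : 0 < r ∨ r = 0 := by omega
  -- descending chain
  have key : ∀ m : ℕ, ∀ s : Finset (Fin n), s.card = m →
      ((∃ μ, Coef v s (s.card - r) μ) ∨ m ≤ r) →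
      ∃ S : ℕ → Finset (Fin n), S m = s ∧ (∀ t, t < m → S t ⊆ S (t + 1)) ∧
        (∀ t, t ≤ m → (S t).card = t) ∧ ∀ t, t ≤ m → ∀ k, |∑ a ∈ S t, v a k| ≤ r * B := by
    intro m
    induction m with
    | zero =>
      intro s hs _
      have hs0 : s = ∅ := Finset.card_eq_zero.1 hs
      refine ⟨fun _ => ∅, hs0.symm, fun t ht => by omega, fun t ht => ?_, fun t ht k => ?_⟩
      · rw [Finset.card_empty]; omega
      · rw [Finset.sum_empty, abs_zero]; positivity
    | succ m ih =>
      intro s hs hor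
      have hbd : ∀ k, |∑ a ∈ s, v a k| ≤ r * B := by
        intro k
        rcases hor with ⟨μ, hμ⟩ | hle
        · exact hμ.bound hB k
        · calc |∑ a ∈ s, v a k| ≤ ∑ a ∈ s, |v a k| := Finset.abs_sum_le_sum_abs _ _
            _ ≤ ∑ _a ∈ s, B := Finset.sum_le_sum fun a _ => hB a k
            _ = s.card * B := by rw [Finset.sum_const, nsmul_eq_mul]
            _ ≤ r * B := by
                refine mul_le_mul_of_nonneg_right ?_ hB0
                rw [hs]
                exact_mod_cast hle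
      obtain ⟨s', hs's, hs'c, hs'o⟩ : ∃ s' ⊆ s, s'.card = m ∧
          ((∃ μ, Coef v s' (s'.card - r) μ) ∨ m ≤ r) := by
        by_cases hmr : m ≤ r
        · obtain ⟨s', h1, h2⟩ := Finset.exists_subset_card_eq (s := s) (n := m) (by omega)
          exact ⟨s', h1, h2, Or.inr hmr⟩
        · rcases hor with ⟨μ, hμ⟩ | hle
          · obtain ⟨a, ha, μ', h1⟩ := hμ.step (by omega)
            refine ⟨s.erase a, Finset.erase_subset _ _, ?_, Or.inl ⟨μ', h1⟩⟩
            rw [Finset.card_erase_of_mem ha, hs]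
            rfl
          · omega
      obtain ⟨S, hS1, hS2, hS3, hS4⟩ := ih s' hs'c hs'o
      refine ⟨fun t => if t ≤ m then S t else s, ?_, ?_, ?_, ?_⟩
      · simp
      · intro t ht
        rcases Nat.lt_or_ge t m with h | h
        · simp only [h.le, if_true, Nat.succ_le_of_lt h]
          exact hS2 t h
        · have : t = m := by omega
          subst this
          simp only [le_refl, if_true]
          rw [if_neg (by omega), hS1]
          exact hs's
      · intro t ht
        by_cases h : t ≤ m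
        · simp only [h, if_true]; exact hS3 t h
        · simp only [h, if_false]; omega
      · intro t ht k
        by_cases h : t ≤ m
        · simp only [h, if_true]; exact hS4 t h k
        · simp only [h, if_false]; exact hbd k
  obtain ⟨S, -, h2, h3, h4⟩ := key n univ (by simp) (by
    by_cases hn : n ≤ r
    · exact Or.inr hn
    · left
      have hn0 : (0 : ℚ) < n := by
        have : 0 < n := by omega
        exact_mod_cast this
      refine ⟨fun _ => (n - r) / n, ⟨fun a _ => ?_, fun a _ => ?_, fun k => ?_, ?_⟩⟩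
      · refine div_nonneg ?_ hn0.le
        have : (r : ℚ) ≤ n := by exact_mod_cast (not_le.1 hn).le
        linarith
      · rw [div_le_one hn0]
        have : (0 : ℚ) ≤ r := Nat.cast_nonneg r
        linarith
      · rw [← Finset.mul_sum, h0, mul_zero]
      · rw [Finset.sum_const, Finset.card_univ, Fintype.card_fin, nsmul_eq_mul]
        field_simp)
  exact ⟨S, h2, h3, h4⟩

end Pool.Agent.L0h16.AR
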